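import Pool.Agent.H27.G.R_seed8.TH612.GS.Stm
import Pool.Agent.H27.G.R_seed8.TH757.GS.Sft

/-! The smoothed sum by a contour shift (helper757, job 4431). -/

set_option autoImplicit false

namespace Pool.Agent.TH757.GS

open Complex Filter Topology MeasureTheory Set
open Pool.Agent.TH612.CF Pool.Agent.TH612.GS
open Pool.Agent.W182.KO hiding ee SS_summable

noncomputable section

/-! ### tails -/

/-- the constant of the tails -/
def Z0 : ℝ := ∑' n : ℕ, (n : ℝ) ^ (-(33 / 32) : ℝ)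

lemma Z0_sum : Summable (fun n : ℕ => (n : ℝ) ^ (-(33 / 32) : ℝ)) :=
  Real.summable_nat_rpow.2 (by norm_num)

lemma Z0_nonneg : 0 ≤ Z0 := tsum_nonneg fun n => by positivity

lemma tl {f : ℕ → ℂ} {D : ℝ} (hD : 0 ≤ D) (hf0 : f 0 = 0)
    (hf : ∀ n : ℕ, 1 ≤ n → ‖f n‖ ≤ D * (n : ℝ) ^ (-(39 / 32) : ℝ)) :
    Summable f ∧ ‖∑' n, f n‖ ≤ D * Z0 ∧ (∀ M : ℕ, ‖∑ n ∈ Finset.Icc 1 M, f n‖ ≤ D * Z0) ∧
    ∀ M : ℕ, 1 ≤ M → ‖(∑' n, f n) - ∑ n ∈ Finset.Icc 1 M, f n‖ ≤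
      D * Z0 * (M : ℝ) ^ (-(3 / 16) : ℝ) := by
  have h1 : ∀ n : ℕ, ‖f n‖ ≤ D * (n : ℝ) ^ (-(33 / 32) : ℝ) := by
    intro n
    rcases Nat.eq_zero_or_pos n with rfl | hn
    · rw [hf0, norm_zero]
      positivity
    · refine (hf n hn).trans ?_
      refine mul_le_mul_of_nonneg_left ?_ hD
      exact Real.rpow_le_rpow_of_exponent_le (by exact_mod_cast hn) (by norm_num)
  have hs : Summable f := Summable.of_norm_bounded (Z0_sum.mul_left D) h1
  have hg : HasSum (fun n : ℕ => D * (n : ℝ) ^ (-(33 / 32) : ℝ)) (D * Z0) :=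
    Z0_sum.hasSum.mul_left D
  refine ⟨hs, tsum_of_norm_bounded hg h1, fun M => ?_, fun M hM => ?_⟩
  · refine (norm_sum_le_of_le _ fun n _ => h1 n).trans ?_
    have h5 : ∑ n ∈ Finset.Icc 1 M, D * (n : ℝ) ^ (-(33 / 32) : ℝ) ≤
        ∑' n : ℕ, D * (n : ℝ) ^ (-(33 / 32) : ℝ) :=
      (Z0_sum.mul_left D).sum_le_tsum _ (fun n _ => by positivity)
    have h6 : ∑' n : ℕ, D * (n : ℝ) ^ (-(33 / 32) : ℝ) = D * Z0 := tsum_mul_left
    rw [h6] at h5
    exact h5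
  · classical
    have h2 : HasSum (fun n => if n ∈ Finset.Icc 1 M then f n else 0)
        (∑ n ∈ Finset.Icc 1 M, f n) := by
      have h3 : HasSum (fun n => if n ∈ Finset.Icc 1 M then f n else 0)
          (∑ n ∈ Finset.Icc 1 M, if n ∈ Finset.Icc 1 M then f n else 0) :=
        hasSum_sum_of_ne_finset_zero (fun b hb => if_neg hb)
      have h4 : ∑ n ∈ Finset.Icc 1 M, (if n ∈ Finset.Icc 1 M then f n else 0) =
          ∑ n ∈ Finset.Icc 1 M, f n := Finset.sum_congr rfl fun n hn => if_pos hn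
      rw [h4] at h3
      exact h3
    have h3 := hs.hasSum.sub h2
    have h4 : HasSum (fun n : ℕ => (M : ℝ) ^ (-(3 / 16) : ℝ) * (D * (n : ℝ) ^ (-(33 / 32) : ℝ)))
        ((M : ℝ) ^ (-(3 / 16) : ℝ) * (D * Z0)) := hg.mul_left _
    refine (h3.norm_le_of_bounded h4 fun n => ?_).trans (le_of_eq (by ring))
    have hM0 : (0 : ℝ) < M := by exact_mod_cast hM
    by_cases hn : n ∈ Finset.Icc 1 M
    · rw [if_pos hn, sub_self, norm_zero]
      positivity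
    · rw [if_neg hn, sub_zero]
      rcases Nat.eq_zero_or_pos n with rfl | hn0
      · rw [hf0, norm_zero]
        positivity
      · have hnM : M ≤ n := by
          by_contra hc
          exact hn (Finset.mem_Icc.2 ⟨hn0, by omega⟩)
        have hn1 : (0 : ℝ) < n := by exact_mod_cast hn0
        refine (hf n hn0).trans ?_
        have e : (n : ℝ) ^ (-(39 / 32) : ℝ) =
            (n : ℝ) ^ (-(3 / 16) : ℝ) * (n : ℝ) ^ (-(33 / 32) : ℝ) := by
          rw [← Real.rpow_add hn1]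
          congr 1
          norm_num
        rw [e]
        have h5 : (n : ℝ) ^ (-(3 / 16) : ℝ) ≤ (M : ℝ) ^ (-(3 / 16) : ℝ) :=
          Real.rpow_le_rpow_of_nonpos hM0 (by exact_mod_cast hnM) (by norm_num)
        have h6 : (0 : ℝ) ≤ D * (n : ℝ) ^ (-(33 / 32) : ℝ) := by positivity
        calc D * ((n : ℝ) ^ (-(3 / 16) : ℝ) * (n : ℝ) ^ (-(33 / 32) : ℝ)) =
            (n : ℝ) ^ (-(3 / 16) : ℝ) * (D * (n : ℝ) ^ (-(33 / 32) : ℝ)) := by ring
          _ ≤ _ := mul_le_mul_of_nonneg_right h5 h6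

/-! ### zeta and its partial sums -/

lemma zt {z : ℂ} (hz : z.re = 5 / 4) : ‖riemannZeta z‖ ≤ Z0 ∧ (∀ M : ℕ, ‖zN M z‖ ≤ Z0) ∧
    ∀ M : ℕ, 1 ≤ M → ‖riemannZeta z - zN M z‖ ≤ Z0 * (M : ℝ) ^ (-(3 / 16) : ℝ) := by
  have hz0 : z ≠ 0 := by
    rintro rfl
    norm_num at hz
  have h0 : (1 : ℂ) / ((0 : ℕ) : ℂ) ^ z = 0 := by
    rw [Nat.cast_zero, Complex.zero_cpow hz0, div_zero]
  have h1 : ∀ n : ℕ, 1 ≤ n → ‖(1 : ℂ) / (n : ℂ) ^ z‖ ≤ 1 * (n : ℝ) ^ (-(39 / 32) : ℝ) := by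
    intro n hn
    rw [norm_div, norm_one, Complex.norm_natCast_cpow_of_pos hn, one_mul, one_div,
      ← Real.rpow_neg (by positivity), hz]
    exact Real.rpow_le_rpow_of_exponent_le (by exact_mod_cast hn) (by norm_num)
  obtain ⟨_, h2, h3, h4⟩ := tl zero_le_one h0 h1
  rw [one_mul] at h2 h4
  have e1 : riemannZeta z = ∑' n : ℕ, 1 / (n : ℂ) ^ z :=
    zeta_eq_tsum_one_div_nat_cpow (by rw [hz]; norm_num)
  have e2 : ∀ M : ℕ, zN M z = ∑ n ∈ Finset.Icc 1 M, 1 / (n : ℂ) ^ z := by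
    intro M
    unfold zN
    refine Finset.sum_congr rfl fun n _ => ?_
    rw [Complex.cpow_neg, one_div]
  refine ⟨by rw [e1]; exact h2, fun M => ?_, fun M hM => ?_⟩
  · rw [e2]
    have := h3 M
    rwa [one_mul] at this
  · rw [e1, e2]
    exact h4 M hM

lemma prod_sub_le {ι : Type*} (s : Finset ι) (a b : ι → ℂ) {Z e : ℝ} (hZ : 1 ≤ Z) (he : 0 ≤ e)
    (ha : ∀ i ∈ s, ‖a i‖ ≤ Z) (hb : ∀ i ∈ s, ‖b i‖ ≤ Z) (hab : ∀ i ∈ s, ‖a i - b i‖ ≤ e) :
    ‖∏ i ∈ s, a i - ∏ i ∈ s, b i‖ ≤ s.card * Z ^ s.card * e := by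
  classical
  induction s using Finset.induction_on with
  | empty => simp
  | insert i s hi ih =>
    have h1 := ih (fun j hj => ha j (Finset.mem_insert_of_mem hj))
      (fun j hj => hb j (Finset.mem_insert_of_mem hj))
      (fun j hj => hab j (Finset.mem_insert_of_mem hj))
    have h2 := ha i (Finset.mem_insert_self i s)
    have h3 := hab i (Finset.mem_insert_self i s)
    have h4 : ‖∏ j ∈ s, b j‖ ≤ Z ^ s.card := by
      rw [norm_prod]
      refine (Finset.prod_le_prod (fun _ _ => norm_nonneg _)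
        (fun j hj => hb j (Finset.mem_insert_of_mem hj))).trans ?_
      rw [Finset.prod_const]
    rw [Finset.prod_insert hi, Finset.prod_insert hi, Finset.card_insert_of_notMem hi]
    set A := ∏ j ∈ s, a j
    set B := ∏ j ∈ s, b j
    set n := s.card
    have e1 : a i * A - b i * B = a i * (A - B) + (a i - b i) * B := by ring
    rw [e1]
    have h5 : ‖a i * (A - B)‖ ≤ Z * (n * Z ^ n * e) := by
      rw [norm_mul]
      gcongr
    have h6 : ‖(a i - b i) * B‖ ≤ e * Z ^ n := by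
      rw [norm_mul]
      gcongr
    have h7 : e * Z ^ n ≤ e * Z ^ n * Z := le_mul_of_one_le_right (by positivity) hZ
    calc _ ≤ _ := norm_add_le _ _
      _ ≤ Z * (n * Z ^ n * e) + e * Z ^ n * Z := by linarith
      _ = _ := by push_cast; ring

variable {k : ℕ}

/-! ### shifted coefficients -/

/-- the shifted vectors -/
def as (γ : Fin k ⊕ Fin k → ℝ) (s : ℂ) : Fin k → ℂ := fun j => (γ (Sum.inl j) : ℂ) - I * s / 2
/-- the shifted vectors -/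
def bs (γ : Fin k ⊕ Fin k → ℝ) (s : ℂ) : Fin k → ℂ := fun j => (γ (Sum.inr j) : ℂ) + I * s / 2

lemma dg_as (γ : Fin k ⊕ Fin k → ℝ) (s : ℂ) (n : ℕ) (hn : n ≠ 0) :
    dg (as γ s) (bs γ s) n = dr γ n * (n : ℂ) ^ (-s) := by
  have e1 : (fun j => I * bs γ s j) = fun j => I * (γ (Sum.inr j) : ℂ) + (-s / 2) := by
    funext j
    unfold bs
    linear_combination (s / 2) * I_mul_I
  have e2 : (fun j => -(I * as γ s j)) = fun j => -(I * (γ (Sum.inl j) : ℂ)) + (-s / 2) := by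
    funext j
    unfold as
    linear_combination (s / 2) * I_mul_I
  have hn' : (n : ℂ) ≠ 0 := by exact_mod_cast hn
  have e3 : (n : ℂ) ^ (-s) = (n : ℂ) ^ (-s / 2) * (n : ℂ) ^ (-s / 2) := by
    rw [← Complex.cpow_add _ _ hn']
    congr 1
    ring
  unfold dr dg
  rw [e1, e2, tau_shift, tau_shift, e3]
  ring

lemma as_im (γ : Fin k ⊕ Fin k → ℝ) (s : ℂ) (j : Fin k) : (as γ s j).im = -(s.re / 2) := by
  unfold as
  simp

lemma bs_im (γ : Fin k ⊕ Fin k → ℝ) (s : ℂ) (j : Fin k) : (bs γ s j).im = s.re / 2 := by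
  unfold bs
  simp

lemma Tb_as (γ : Fin k ⊕ Fin k → ℝ) {s : ℂ} {c : ℝ} (hs : |s.re| ≤ 2 * c) :
    Tb c (as γ s) (bs γ s) := by
  intro j
  rw [as_im, bs_im, abs_neg, abs_div, abs_two]
  constructor <;> linarith

lemma dr_le (k : ℕ) : ∃ D : ℝ, 0 ≤ D ∧ ∀ (γ : Fin k ⊕ Fin k → ℝ) (n : ℕ), 1 ≤ n →
    ‖dr γ n‖ ≤ D * (n : ℝ) ^ (-(31 / 32) : ℝ) := by
  obtain ⟨D, hD0, hD⟩ := dg_le k (δ := 1 / 32) (by norm_num)
  refine ⟨D, hD0, fun γ n hn => ?_⟩
  have hn0 : (0 : ℝ) < n := by exact_mod_cast hn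
  have h1 := hD (as γ ((1 / 16 : ℝ) : ℂ)) (bs γ ((1 / 16 : ℝ) : ℂ)) (fun j => by
    rw [as_im, bs_im, Complex.ofReal_re]
    constructor <;> norm_num) n
  rw [dg_as γ _ n (by omega), norm_mul, Complex.norm_natCast_cpow_of_pos hn, Complex.neg_re,
    Complex.ofReal_re] at h1
  have h2 : ‖dr γ n‖ = ‖dr γ n‖ * (n : ℝ) ^ (-(1 / 16) : ℝ) * (n : ℝ) ^ (1 / 16 : ℝ) := by
    rw [mul_assoc, ← Real.rpow_add hn0]
    norm_num
  rw [h2]
  have e : (n : ℝ) ^ (-(31 / 32) : ℝ) = (n : ℝ) ^ (-(1 + 1 / 32) : ℝ) * (n : ℝ) ^ (1 / 16 : ℝ) := by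
    rw [← Real.rpow_add hn0]
    norm_num
  rw [e, ← mul_assoc]
  exact mul_le_mul_of_nonneg_right h1 (by positivity)

/-- the finite Dirichlet series -/
def EM (M : ℕ) (γ : Fin k ⊕ Fin k → ℝ) (s : ℂ) : ℂ :=
  ∑ n ∈ Finset.Icc 1 M, dr γ n * (n : ℂ) ^ (-s)

lemma EM_GM (k : ℕ) : ∃ K : ℝ, 0 ≤ K ∧ ∀ (γ : Fin k ⊕ Fin k → ℝ) (M : ℕ) (s : ℂ), 1 ≤ M →
    s.re = 1 / 4 → ‖EM M γ s - GM M γ s‖ ≤ K * (M : ℝ) ^ (-(3 / 16) : ℝ) := by
  obtain ⟨D, hD0, hD⟩ := dr_le k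
  have hZ1 : (1 : ℝ) ≤ max 1 Z0 := le_max_left _ _
  have hBF : 0 ≤ BF k (1 / 8) := (Real.exp_pos _).le
  refine ⟨D * Z0 + BF k (1 / 8) * ((k * k : ℕ) * (max 1 Z0) ^ (k * k) * Z0),
    by have := Z0_nonneg; positivity, fun γ M s hM hs => ?_⟩
  have hM0 : (0 : ℝ) < M := by exact_mod_cast hM
  -- the series
  have hT : Tb (1 / 8) (as γ s) (bs γ s) := Tb_as γ (by rw [hs]; norm_num)
  have h1 := zh_eq (a := as γ s) (b := bs γ s) (c := 1 / 8) (δ := 1 / 8) (by norm_num) hT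
    (by norm_num) (fun j => by
      rw [as_im, bs_im, hs]
      constructor <;> norm_num)
  have hf : ∀ n : ℕ, 1 ≤ n → ‖dg (as γ s) (bs γ s) n‖ ≤ D * (n : ℝ) ^ (-(39 / 32) : ℝ) := by
    intro n hn
    have hn0 : (0 : ℝ) < n := by exact_mod_cast hn
    rw [dg_as γ s n (by omega), norm_mul, Complex.norm_natCast_cpow_of_pos hn, Complex.neg_re, hs]
    have e : (n : ℝ) ^ (-(39 / 32) : ℝ) = (n : ℝ) ^ (-(31 / 32) : ℝ) * (n : ℝ) ^ (-(1 / 4) : ℝ) := by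
      rw [← Real.rpow_add hn0]
      norm_num
    rw [e, ← mul_assoc]
    exact mul_le_mul_of_nonneg_right (hD γ n hn) (by positivity)
  obtain ⟨_, _, _, h2⟩ := tl hD0 (dg_zero (as γ s) (bs γ s)) hf
  have h3 := h2 M hM
  have e1 : ∑ n ∈ Finset.Icc 1 M, dg (as γ s) (bs γ s) n = EM M γ s := by
    unfold EM
    refine Finset.sum_congr rfl fun n hn => ?_
    rw [dg_as γ s n (by have := (Finset.mem_Icc.1 hn).1; omega)]
  rw [e1, ← h1] at h3
  -- the zeta factors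
  have e2 : ∀ j l, 1 + I * as γ s j - I * bs γ s l =
      1 + s + I * ((γ (Sum.inl j) : ℂ) - (γ (Sum.inr l) : ℂ)) := by
    intro j l
    unfold as bs
    linear_combination (-s) * I_mul_I
  simp only [e2] at h3
  have hre : ∀ j l, (1 + s + I * ((γ (Sum.inl j) : ℂ) - (γ (Sum.inr l) : ℂ))).re = 5 / 4 := by
    intro j l
    have e : (1 + s + I * ((γ (Sum.inl j) : ℂ) - (γ (Sum.inr l) : ℂ))).re = 1 + s.re := by simp
    rw [e, hs]
    norm_num
  have h4 := prod_sub_le (Finset.univ : Finset (Fin k × Fin k))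
    (fun x => riemannZeta (1 + s + I * ((γ (Sum.inl x.1) : ℂ) - (γ (Sum.inr x.2) : ℂ))))
    (fun x => zN M (1 + s + I * ((γ (Sum.inl x.1) : ℂ) - (γ (Sum.inr x.2) : ℂ))))
    (Z := max 1 Z0) (e := Z0 * (M : ℝ) ^ (-(3 / 16) : ℝ)) hZ1
    (by have := Z0_nonneg; positivity)
    (fun x _ => (zt (hre x.1 x.2)).1.trans (le_max_right _ _))
    (fun x _ => ((zt (hre x.1 x.2)).2.1 M).trans (le_max_right _ _))
    (fun x _ => (zt (hre x.1 x.2)).2.2 M hM)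
  rw [Fintype.prod_prod_type, Fintype.prod_prod_type, Finset.card_univ, Fintype.card_prod,
    Fintype.card_fin] at h4
  have e3 : GM M γ s = FH (as γ s) (bs γ s) *
      ∏ j : Fin k, ∏ l : Fin k, zN M (1 + s + I * ((γ (Sum.inl j) : ℂ) - (γ (Sum.inr l) : ℂ))) := rfl
  rw [e3]
  set F := FH (as γ s) (bs γ s) with hF
  set A := ∏ j : Fin k, ∏ l : Fin k,
    riemannZeta (1 + s + I * ((γ (Sum.inl j) : ℂ) - (γ (Sum.inr l) : ℂ)))
  set B := ∏ j : Fin k, ∏ l : Fin k, zN M (1 + s + I * ((γ (Sum.inl j) : ℂ) - (γ (Sum.inr l) : ℂ)))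
  have h5 : ‖F‖ ≤ BF k (1 / 8) := FH_le (by norm_num) hT
  have h6 : ‖F * (A - B)‖ ≤ BF k (1 / 8) *
      (((k * k : ℕ) : ℝ) * (max 1 Z0) ^ (k * k) * (Z0 * (M : ℝ) ^ (-(3 / 16) : ℝ))) := by
    rw [norm_mul]
    gcongr
  have e4 : EM M γ s - F * B = F * (A - B) - (F * A - EM M γ s) := by ring
  rw [e4]
  refine (norm_sub_le _ _).trans ?_
  calc _ ≤ BF k (1 / 8) *
      (((k * k : ℕ) : ℝ) * (max 1 Z0) ^ (k * k) * (Z0 * (M : ℝ) ^ (-(3 / 16) : ℝ))) +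
      D * Z0 * (M : ℝ) ^ (-(3 / 16) : ℝ) := add_le_add h6 h3
    _ = _ := by ring

/-! ### analytic properties of `GM` -/

lemma zN_diff (M : ℕ) : Differentiable ℂ (zN M) := by
  unfold zN
  refine Differentiable.fun_sum fun n hn => ?_
  have h0 : (n : ℂ) ≠ 0 := by
    have := (Finset.mem_Icc.1 hn).1
    exact_mod_cast (by omega : n ≠ 0)
  exact differentiable_neg.const_cpow (Or.inl h0)

lemma zN_le (M : ℕ) {z : ℂ} (hz : 0 ≤ z.re) : ‖zN M z‖ ≤ M := by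
  unfold zN
  refine (norm_sum_le_of_le (f := fun n : ℕ => (n : ℂ) ^ (-z)) (n := fun _ => (1 : ℝ)) _
    fun n hn => ?_).trans ?_
  · have hn1 := (Finset.mem_Icc.1 hn).1
    rw [Complex.norm_natCast_cpow_of_pos hn1, Complex.neg_re]
    exact Real.rpow_le_one_of_one_le_of_nonpos (by exact_mod_cast hn1) (by linarith)
  · rw [Finset.sum_const, Nat.card_Icc, nsmul_eq_mul, mul_one]
    push_cast
    simp

lemma GM_diff (M : ℕ) (γ : Fin k ⊕ Fin k → ℝ) :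
    DifferentiableOn ℂ (GM M γ) {s : ℂ | |s.re| < 3 / 8} := by
  have hU : IsOpen {s : ℂ | |s.re| < 3 / 8} :=
    isOpen_lt (continuous_abs.comp Complex.continuous_re) continuous_const
  have h1 := FH_diff (a := fun s => as γ s) (b := fun s => bs γ s) (c := 3 / 16) hU (by norm_num)
    (fun j => by unfold as; fun_prop) (fun j => by unfold bs; fun_prop)
    (fun s hs => Tb_as γ (by
      have hs' : |s.re| < 3 / 8 := hs
      linarith))
  have h2 : DifferentiableOn ℂ (fun s : ℂ => ∏ j : Fin k, ∏ l : Fin k,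
      zN M (1 + s + I * ((γ (Sum.inl j) : ℂ) - (γ (Sum.inr l) : ℂ)))) {s : ℂ | |s.re| < 3 / 8} := by
    intro s hs
    refine DifferentiableWithinAt.fun_finsetProd fun j _ => ?_
    refine DifferentiableWithinAt.fun_finsetProd fun l _ => ?_
    exact ((zN_diff M).comp (by fun_prop : Differentiable ℂ fun s : ℂ =>
      1 + s + I * ((γ (Sum.inl j) : ℂ) - (γ (Sum.inr l) : ℂ)))).differentiableAt.differentiableWithinAt
  exact h1.mul h2

lemma GM_bd (M : ℕ) (γ : Fin k ⊕ Fin k → ℝ) {s : ℂ} (hs : |s.re| ≤ 1 / 4) :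
    ‖GM M γ s‖ ≤ BF k (1 / 8) * (M : ℝ) ^ (k * k) := by
  have hT : Tb (1 / 8) (as γ s) (bs γ s) := Tb_as γ (by linarith)
  have e3 : GM M γ s = FH (as γ s) (bs γ s) *
      ∏ j : Fin k, ∏ l : Fin k, zN M (1 + s + I * ((γ (Sum.inl j) : ℂ) - (γ (Sum.inr l) : ℂ))) := rfl
  rw [e3, norm_mul]
  have h1 := FH_le (by norm_num) hT
  have h2 : ‖∏ j : Fin k, ∏ l : Fin k,
      zN M (1 + s + I * ((γ (Sum.inl j) : ℂ) - (γ (Sum.inr l) : ℂ)))‖ ≤ (M : ℝ) ^ (k * k) := by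
    rw [← Fintype.prod_prod_type (f := fun x : Fin k × Fin k =>
      zN M (1 + s + I * ((γ (Sum.inl x.1) : ℂ) - (γ (Sum.inr x.2) : ℂ)))), norm_prod]
    refine (Finset.prod_le_prod (fun _ _ => norm_nonneg _) (g := fun _ => (M : ℝ))
      (fun x _ => zN_le M ?_)).trans ?_
    · have e : (1 + s + I * ((γ (Sum.inl x.1) : ℂ) - (γ (Sum.inr x.2) : ℂ))).re = 1 + s.re := by simp
      rw [e]
      have := (abs_le.1 hs).1
      linarith
    · rw [Finset.prod_const, Finset.card_univ, Fintype.card_prod, Fintype.card_fin]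
  have hBF : 0 ≤ BF k (1 / 8) := (Real.exp_pos _).le
  gcongr

/-! ### the sum as an integral -/

variable {ψ : ℝ → ℝ}

lemma one_term (h : CutR ψ) {L : ℝ} (hL : 4 ≤ L) {n : ℕ} (hn : 1 ≤ n) :
    ∫ y : ℝ, Qk ψ (((L / 4 : ℝ) : ℂ) + y * I) *
      (n : ℂ) ^ (-((((L / 4 : ℝ) : ℂ) + y * I) / (L : ℂ))) =
      2 * Real.pi * (ψ (Real.log n / L) : ℂ) := by
  have hn' : (n : ℂ) ≠ 0 := by exact_mod_cast (by omega : n ≠ 0)
  have hL0 : (L : ℂ) ≠ 0 := by exact_mod_cast (by linarith : L ≠ 0)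
  obtain ⟨x, hx⟩ : ∃ x : ℝ, x = Real.log n / L := ⟨_, rfl⟩
  rw [← hx]
  have e : ∀ y : ℝ, (n : ℂ) ^ (-((((L / 4 : ℝ) : ℂ) + y * I) / (L : ℂ))) =
      exp (-(x * y) * I) * exp (-(x * (L / 4 : ℝ))) := by
    intro y
    rw [Complex.cpow_def_of_ne_zero hn', ← Complex.natCast_log, ← Complex.exp_add]
    congr 1
    rw [hx]
    push_cast
    field_simp
    ring
  simp only [e]
  have h1 := inv_pos' h (c := L / 4) (by linarith) x
  have h2 : (fun y : ℝ => Qk ψ (((L / 4 : ℝ) : ℂ) + y * I) *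
      (exp (-(x * y) * I) * exp (-(x * (L / 4 : ℝ))))) = fun y : ℝ =>
      (Qk ψ (((L / 4 : ℝ) : ℂ) + y * I) * exp (-(x * y) * I)) * exp (-(x * (L / 4 : ℝ))) := by
    funext y
    ring
  rw [h2, integral_mul_const, h1]
  have h3 : exp ((x : ℂ) * ((L / 4 : ℝ) : ℂ)) * exp (-((x : ℂ) * ((L / 4 : ℝ) : ℂ))) = 1 := by
    rw [← Complex.exp_add, add_neg_cancel, Complex.exp_zero]
  linear_combination (2 * Real.pi * (ψ x : ℂ)) * h3

lemma cp_norm {L : ℝ} (hL : 4 ≤ L) {n : ℕ} (hn : 1 ≤ n) (y : ℝ) :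
    ‖(n : ℂ) ^ (-((((L / 4 : ℝ) : ℂ) + y * I) / (L : ℂ)))‖ ≤ 1 := by
  rw [Complex.norm_natCast_cpow_of_pos hn]
  refine Real.rpow_le_one_of_one_le_of_nonpos (by exact_mod_cast hn) ?_
  have e : (-((((L / 4 : ℝ) : ℂ) + y * I) / (L : ℂ))).re = -(L / 4 / L) := by
    rw [Complex.neg_re, Complex.div_ofReal_re]
    simp
  rw [e]
  have : 0 ≤ L / 4 / L := by positivity
  linarith

lemma cp_cont {L : ℝ} {n : ℕ} (hn : 1 ≤ n) :
    Continuous (fun y : ℝ => (n : ℂ) ^ (-((((L / 4 : ℝ) : ℂ) + y * I) / (L : ℂ)))) := by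
  have hn' : (n : ℂ) ≠ 0 := by exact_mod_cast (by omega : n ≠ 0)
  exact Continuous.const_cpow (by fun_prop) (Or.inl hn')

lemma SP_int (h : CutR ψ) (M : ℕ) (γ : Fin k ⊕ Fin k → ℝ) {L : ℝ} (hL : 4 ≤ L)
    (hLM : L = Real.log M / 2) :
    2 * Real.pi * SP ψ M γ = ∫ y : ℝ, Qk ψ (((L / 4 : ℝ) : ℂ) + y * I) *
      EM M γ ((((L / 4 : ℝ) : ℂ) + y * I) / (L : ℂ)) := by
  unfold SP EM
  rw [← hLM, Finset.mul_sum]
  simp only [Finset.mul_sum]
  rw [integral_finsetSum]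
  · refine Finset.sum_congr rfl fun n hn => ?_
    have hn1 := (Finset.mem_Icc.1 hn).1
    have h1 := one_term h hL hn1
    have h2 : (fun y : ℝ => Qk ψ (((L / 4 : ℝ) : ℂ) + y * I) *
        (dr γ n * (n : ℂ) ^ (-((((L / 4 : ℝ) : ℂ) + y * I) / (L : ℂ))))) = fun y : ℝ =>
        dr γ n * (Qk ψ (((L / 4 : ℝ) : ℂ) + y * I) *
          (n : ℂ) ^ (-((((L / 4 : ℝ) : ℂ) + y * I) / (L : ℂ)))) := by
      funext y
      ring
    rw [h2, integral_const_mul, h1]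
    ring
  · intro n hn
    have hn1 := (Finset.mem_Icc.1 hn).1
    have h1 := (int_Qk h (c := L / 4) (by linarith) (cp_cont (L := L) hn1) (cp_norm hL hn1)).1
    refine (h1.const_mul (dr γ n)).congr (Eventually.of_forall fun y => ?_)
    simp only
    ring

theorem t_CONT : Pool.Agent.TH612.GS.S_CONT := by
  intro k ψ hψ
  have h : CutR ψ := ⟨hψ.1, hψ.2.1, hψ.2.2.1, hψ.2.2.2⟩
  obtain ⟨C, hC0, hQ1, hQ2⟩ := Qk_bd h
  obtain ⟨K, hK0, hK⟩ := EM_GM k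
  obtain ⟨J, hJ⟩ : ∃ J : ℝ, J = ∫ y : ℝ, ((1 + |y|) ^ 2)⁻¹ := ⟨_, rfl⟩
  have hJ0 : 0 ≤ J := by
    rw [hJ]
    exact integral_nonneg fun _ => by positivity
  refine ⟨C * K * J + C + 1, max 2 ⌈Real.exp 8⌉₊, by positivity, le_max_left _ _,
    fun M γ hM => ?_⟩
  have hM2 : 2 ≤ M := (le_max_left _ _).trans hM
  have hM0 : (0 : ℝ) < M := by exact_mod_cast (by omega : 0 < M)
  have hM1 : (1 : ℝ) ≤ M := by exact_mod_cast (by omega : 1 ≤ M)
  have hlog : 8 ≤ Real.log M := by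
    rw [Real.le_log_iff_exp_le hM0]
    refine (Nat.le_ceil _).trans ?_
    exact_mod_cast (le_max_right _ _).trans hM
  obtain ⟨L, hL⟩ : ∃ L : ℝ, L = Real.log M / 2 := ⟨_, rfl⟩
  have hL4 : 4 ≤ L := by rw [hL]; linarith
  have hL0 : 0 < L := by linarith
  have hLC : (L : ℂ) ≠ 0 := by exact_mod_cast hL0.ne'
  obtain ⟨F, hF⟩ : ∃ F : ℂ → ℂ, F = fun w => GM M γ (w / (L : ℂ)) := ⟨_, rfl⟩
  have hre : ∀ w : ℂ, (w / (L : ℂ)).re = w.re / L := fun w => by rw [Complex.div_ofReal_re]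
  have hd : DifferentiableOn ℂ F {s : ℂ | |s.re| < 3 / 8 * L} := by
    rw [hF]
    refine (GM_diff M γ).comp (by fun_prop) fun s hs => ?_
    show |(s / (L : ℂ)).re| < 3 / 8
    rw [hre, abs_div, abs_of_pos hL0, div_lt_iff₀ hL0]
    exact hs
  have hB : ∀ s : ℂ, |s.re| ≤ L / 4 → ‖F s‖ ≤ BF k (1 / 8) * (M : ℝ) ^ (k * k) := by
    intro s hs
    rw [hF]
    apply GM_bd
    rw [hre, abs_div, abs_of_pos hL0, div_le_iff₀ hL0]
    linarith
  have hc : 1 ≤ L / 4 := by linarith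
  have h1 := shift_main h hc (c' := 3 / 8 * L) (by linarith) hd hB
  have h2 := SP_int h M γ hL4 hL
  have hF0 : F 0 = GM M γ 0 := by rw [hF]; simp
  rw [hF0] at h1
  -- continuity and integrability
  have hEc : Continuous (fun y : ℝ => EM M γ ((((L / 4 : ℝ) : ℂ) + y * I) / (L : ℂ))) := by
    unfold EM
    refine continuous_finsetSum _ fun n hn => ?_
    exact continuous_const.mul (cp_cont (Finset.mem_Icc.1 hn).1)
  have hU : IsOpen {s : ℂ | |s.re| < 3 / 8 * L} :=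
    isOpen_lt (continuous_abs.comp Complex.continuous_re) continuous_const
  have hFc : ∀ r : ℝ, |r| ≤ L / 4 → Continuous (fun y : ℝ => F ((r : ℂ) + y * I)) := by
    intro r hr
    rw [continuous_iff_continuousAt]
    intro y
    have h1 : ((r : ℂ) + y * I) ∈ {s : ℂ | |s.re| < 3 / 8 * L} := by
      show |((r : ℂ) + y * I).re| < 3 / 8 * L
      have e : ((r : ℂ) + y * I).re = r := by simp
      rw [e]
      linarith
    have h3 := (hd.differentiableAt (hU.mem_nhds h1)).continuousAt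
    exact ContinuousAt.comp (f := fun y : ℝ => ((r : ℂ) + y * I)) h3 (by fun_prop)
  have hrel : ∀ r y : ℝ, ((r : ℂ) + y * I).re = r := fun r y => by simp
  have hcc : |L / 4| ≤ L / 4 := by rw [abs_of_pos (by linarith)]
  have hcn : |(-(L / 4))| ≤ L / 4 := by rw [abs_neg]; exact hcc
  have hdif : ∀ y : ℝ, ‖EM M γ ((((L / 4 : ℝ) : ℂ) + y * I) / (L : ℂ)) -
      F (((L / 4 : ℝ) : ℂ) + y * I)‖ ≤ K * (M : ℝ) ^ (-(3 / 16) : ℝ) := by
    intro y
    rw [hF]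
    refine hK γ M _ (by omega) ?_
    rw [hre, hrel]
    field_simp
  have i1 : Integrable (fun y : ℝ => Qk ψ (((L / 4 : ℝ) : ℂ) + y * I) *
      (EM M γ ((((L / 4 : ℝ) : ℂ) + y * I) / (L : ℂ)) - F (((L / 4 : ℝ) : ℂ) + y * I))) :=
    (int_Qk h hc (hEc.sub (hFc (L / 4) hcc)) hdif).1
  have i2 := (int_Qk h hc (hFc (L / 4) hcc) (fun y => hB _ (by rw [hrel]; exact hcc))).1
  -- the identity
  have e1 : 2 * Real.pi * (SP ψ M γ - GM M γ 0) =
      (∫ y : ℝ, Qk ψ (((L / 4 : ℝ) : ℂ) + y * I) *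
        (EM M γ ((((L / 4 : ℝ) : ℂ) + y * I) / (L : ℂ)) - F (((L / 4 : ℝ) : ℂ) + y * I))) +
      ∫ y : ℝ, Qk ψ (((-(L / 4) : ℝ) : ℂ) + y * I) * F (((-(L / 4) : ℝ) : ℂ) + y * I) := by
    rw [← h1, mul_sub, h2, ← add_sub_assoc, ← integral_add i1 i2]
    congr 2
    funext y
    ring
  -- powers
  have p1 : Real.exp (L / 4) = (M : ℝ) ^ (1 / 8 : ℝ) := by
    rw [Real.rpow_def_of_pos hM0, hL]
    congr 1
    ring
  have p2 : Real.exp (-(L / 4) / 2) = (M : ℝ) ^ (-(1 / 16) : ℝ) := by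
    rw [Real.rpow_def_of_pos hM0, hL]
    congr 1
    ring
  have p3 : (M : ℝ) ^ (1 / 8 : ℝ) * (M : ℝ) ^ (-(3 / 16) : ℝ) = (M : ℝ) ^ (-(1 / 16) : ℝ) := by
    rw [← Real.rpow_add hM0]
    norm_num
  -- the first integral
  have n1 : ‖∫ y : ℝ, Qk ψ (((L / 4 : ℝ) : ℂ) + y * I) *
      (EM M γ ((((L / 4 : ℝ) : ℂ) + y * I) / (L : ℂ)) - F (((L / 4 : ℝ) : ℂ) + y * I))‖ ≤
      C * K * J * (M : ℝ) ^ (-(1 / 16) : ℝ) := by
    have hb : Integrable (fun y : ℝ => (C * Real.exp (L / 4) * (K * (M : ℝ) ^ (-(3 / 16) : ℝ))) *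
        ((1 + |y|) ^ 2)⁻¹) := one_add_inv_sq_int.const_mul _
    refine (norm_integral_le_of_norm_le hb (Eventually.of_forall fun y => ?_)).trans ?_
    · rw [norm_mul]
      calc _ ≤ (C * Real.exp (L / 4) * ((1 + |y|) ^ 2)⁻¹) * (K * (M : ℝ) ^ (-(3 / 16) : ℝ)) := by
            have := hQ1 (L / 4) y hc
            have := hdif y
            gcongr
        _ = _ := by ring
    · rw [integral_const_mul, ← hJ, p1, ← p3]
      exact le_of_eq (by ring)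
  -- the second integral
  have n2 : ‖∫ y : ℝ, Qk ψ (((-(L / 4) : ℝ) : ℂ) + y * I) * F (((-(L / 4) : ℝ) : ℂ) + y * I)‖ ≤
      C * (M : ℝ) ^ (-(1 / 16) : ℝ) * ∫ y : ℝ, (1 + |y|) ^ (-(2 : ℝ)) *
        ‖GM M γ (-(1 / 4) + I * (y / (Real.log M / 2)))‖ := by
    have hFe : ∀ y : ℝ, F (((-(L / 4) : ℝ) : ℂ) + y * I) =
        GM M γ (-(1 / 4) + I * (y / (Real.log M / 2))) := by
      intro y
      rw [hF]
      show GM M γ ((((-(L / 4) : ℝ) : ℂ) + y * I) / (L : ℂ)) = _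
      congr 1
      have e : ((Real.log M : ℝ) : ℂ) / 2 = (L : ℂ) := by rw [hL]; push_cast; rfl
      rw [e]
      push_cast
      field_simp
    have hpw : ∀ y : ℝ, (1 + |y|) ^ (-(2 : ℝ)) = ((1 + |y|) ^ 2)⁻¹ := by
      intro y
      rw [Real.rpow_neg (by positivity)]
      congr 1
      exact_mod_cast Real.rpow_natCast (1 + |y|) 2
    rw [← integral_const_mul]
    refine norm_integral_le_of_norm_le ?_ (Eventually.of_forall fun y => ?_)
    · refine Integrable.const_mul ?_ _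
      have hcF : Continuous (fun y : ℝ => ‖GM M γ (-(1 / 4) + I * (y / (Real.log M / 2)))‖) := by
        simp only [← hFe]
        exact (hFc (-(L / 4)) hcn).norm
      refine (one_add_inv_sq_int.mul_const (BF k (1 / 8) * (M : ℝ) ^ (k * k))).mono'
        (Continuous.aestronglyMeasurable ?_) (Eventually.of_forall fun y => ?_)
      · simp only [hpw]
        refine Continuous.mul (Continuous.inv₀ (by fun_prop) fun y => by positivity) hcF
      · rw [hpw, ← hFe, norm_mul, norm_norm, Real.norm_of_nonneg (by positivity)]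
        have := hB (((-(L / 4) : ℝ) : ℂ) + y * I) (by rw [hrel]; exact hcn)
        gcongr
    · rw [norm_mul, hFe, hpw]
      have h3 := hQ2 (L / 4) y hc
      rw [p2] at h3
      calc _ ≤ (C * (M : ℝ) ^ (-(1 / 16) : ℝ) * ((1 + |y|) ^ 2)⁻¹) *
            ‖GM M γ (-(1 / 4) + I * (y / (Real.log M / 2)))‖ := by gcongr
        _ = _ := by ring
  -- conclusion
  have hpi := Real.pi_gt_three
  have n3 : ‖SP ψ M γ - GM M γ 0‖ ≤ ‖2 * Real.pi * (SP ψ M γ - GM M γ 0)‖ := by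
    rw [norm_mul]
    have e : ‖(2 * Real.pi : ℂ)‖ = 2 * Real.pi := by
      rw [norm_mul, Complex.norm_real, Real.norm_of_nonneg (by linarith)]
      simp
    rw [e]
    have := norm_nonneg (SP ψ M γ - GM M γ 0)
    nlinarith
  rw [e1] at n3
  refine n3.trans ((norm_add_le _ _).trans ((add_le_add n1 n2).trans ?_))
  obtain ⟨T, hT⟩ : ∃ T : ℝ, T = ∫ y : ℝ, (1 + |y|) ^ (-(2 : ℝ)) *
        ‖GM M γ (-(1 / 4) + I * (y / (Real.log M / 2)))‖ := ⟨_, rfl⟩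
  have hT0 : 0 ≤ T := by
    rw [hT]
    exact integral_nonneg fun _ => by positivity
  rw [← hT]
  have hm : (0 : ℝ) ≤ (M : ℝ) ^ (-(1 / 16) : ℝ) := by positivity
  have hCKJ : 0 ≤ C * K * J := by positivity
  have g1 : 0 ≤ C * K * J * (M : ℝ) ^ (-(1 / 16) : ℝ) * T := by positivity
  have g2 : 0 ≤ C * (M : ℝ) ^ (-(1 / 16) : ℝ) := by positivity
  have g3 : 0 ≤ (M : ℝ) ^ (-(1 / 16) : ℝ) * (1 + T) := by positivity
  nlinarith

end

end Pool.Agent.TH757.GS
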